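import Pool.Agent.H90.DE.Fin
import Pool.Agent.H62.GE.Inst
import Pool.Agent.H62.DE32

/-!
# D-type latin squares of order `2 ^ k`, `k` prime, whose square is latin (MP_2f0703_co)
-/

set_option autoImplicit false

namespace Pool.Agent.Results.MP_2f0703_co.PrimeExponents

open Pool.Agent.H90.DE

/-- `L i` is the row `i`, a permutation of the symbols; the array is a latin square if no column repeats a symbol -/
def IsLatin {n : ℕ} (L : Fin n → Equiv.Perm (Fin n)) : Prop :=
  ∀ j : Fin n, Function.Injective (fun i => L i j)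

/-- every row fixes exactly one point and permutes the other points in a single cycle -/
def IsDType {n : ℕ} (L : Fin n → Equiv.Perm (Fin n)) : Prop :=
  ∀ i : Fin n, (∃! x, L i x = x) ∧ ∀ x y, L i x ≠ x → L i y ≠ y → ∃ k : ℕ, ((L i) ^ k) x = y

/-- the product of two arrays, row by row: `(L M)_i (j) = L_i (M_i (j))` -/
def prod {n : ℕ} (L M : Fin n → Equiv.Perm (Fin n)) : Fin n → Equiv.Perm (Fin n) := fun i => L i * M i

/-- `L` is isotopic to the Cayley table of a group: permuting rows, columns and symbols gives the table -/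
def BasedOnGroup {n : ℕ} (L : Fin n → Equiv.Perm (Fin n)) : Prop :=
  ∃ (G : Type) (_ : Group G) (r c s : Fin n ≃ G), ∀ i j, s (L i j) = r i * c j

/-- there is a D-type latin square of order `n` which is not based on a group and whose square is latin -/
def HasSquare (n : ℕ) : Prop :=
  ∃ L : Fin n → Equiv.Perm (Fin n), IsLatin L ∧ IsDType L ∧ ¬ BasedOnGroup L ∧ IsLatin (prod L L)

theorem main {k N e : ℕ} (hk1 : 1 ≤ k) (he : e * N = 2 ^ k - 1) (hee : e * e < 2 ^ k) [NeZero e]
    (hW : ∀ (F : Type) [Field F] [Fintype F] [CharP F 2], Fintype.card F = 2 ^ k →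
      ∃ (a : F) (c : F → ZMod e) (b : ZMod e → F) (γ δ : ZMod e) (E : ℕ), GW F a e c b γ δ ∧ ∏ i, b i = a ^ E ∧
      (∀ M : ℕ, e ∣ M → ∃ k : ℕ, (a ^ E) ^ k = a ^ M) ∧
      ¬ ∀ i : ZMod e, b (i + γ) * (1 + b i) = b i * (1 + b (i + 1))) : HasSquare (2 ^ k) := by
  classical
  haveI : Fact (Nat.Prime 2) := ⟨Nat.prime_two⟩
  have hum : k ≠ 0 := by omega
  let F := GaloisField 2 k
  letI : Fintype F := Fintype.ofFinite F
  have hcard : Fintype.card F = 2 ^ k := by
    rw [← Nat.card_eq_fintype_card]
    exact GaloisField.card 2 k hum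
  obtain ⟨a, c, b, γ, δ, E, W, hE, hgen, hnid⟩ := hW F hcard
  let ε : F ≃ Fin (2 ^ k) := Fintype.equivFinOfCardEq hcard
  let P : Equiv.Perm F := Equiv.ofBijective (f c b) (Finite.injective_iff_bijective.1 W.f_inj)
  have hP : ∀ x, P x = f c b x := fun x => rfl
  have hPk : ∀ (k : ℕ) (x : F), (P ^ k) x = (f c b)^[k] x := by
    intro k
    induction k with
    | zero => intro x; rfl
    | succ k ih =>
      intro x
      rw [pow_succ, Equiv.Perm.mul_apply, ih, Function.iterate_succ_apply, hP]
  let row : F → Equiv.Perm F := fun i => (Equiv.subRight i).trans (P.trans (Equiv.addLeft i))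
  have hrow : ∀ i x, row i x = i + f c b (x - i) := fun i x => rfl
  let L : Fin (2 ^ k) → Equiv.Perm (Fin (2 ^ k)) :=
    fun i => (ε.symm.trans (row (ε.symm i))).trans ε
  have hL : ∀ i x, L i x = ε (ε.symm i + f c b (ε.symm x - ε.symm i)) := fun i x => rfl
  have hpow : ∀ (i : Fin (2 ^ k)) (l : ℕ) (x : Fin (2 ^ k)),
      ((L i) ^ l) x = ε (ε.symm i + (P ^ l) (ε.symm x - ε.symm i)) := by
    intro i l
    induction l with
    | zero => intro x; simp
    | succ n ih =>
      intro x
      rw [pow_succ, Equiv.Perm.mul_apply, ih, hL, Equiv.symm_apply_apply, pow_succ, Equiv.Perm.mul_apply, hP,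
        add_sub_cancel_left]
  refine ⟨L, ?_, ?_, ?_, ?_⟩
  · intro j i i' hij
    have h1 : L i j = L i' j := hij
    rw [hL, hL] at h1
    have h3 := ε.injective h1
    have h4 : f c b (ε.symm j - ε.symm i) + (ε.symm j - ε.symm i) =
        f c b (ε.symm j - ε.symm i') + (ε.symm j - ε.symm i') := by
      have h5 := W.two
      linear_combination h3 - (ε.symm i - ε.symm i') * h5
    have h5 := W.diff_inj h4
    exact ε.symm.injective (sub_right_injective h5)
  · intro i
    have fix : ∀ x, L i x = x ↔ x = i := by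
      intro x
      rw [hL]
      constructor
      · intro hx
        have h1 : ε.symm i + f c b (ε.symm x - ε.symm i) = ε.symm x := by
          apply ε.injective; rw [hx, Equiv.apply_symm_apply]
        have h3 : f c b (ε.symm x - ε.symm i) + (ε.symm x - ε.symm i) = f c b 0 + 0 := by
          rw [f_zero]
          have h5 := W.two
          linear_combination h1 + (ε.symm x - ε.symm i) * h5
        have h4 := W.diff_inj h3
        exact ε.symm.injective (sub_eq_zero.1 h4)
      · rintro rfl
        rw [sub_self, f_zero, add_zero, Equiv.apply_symm_apply]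
    refine ⟨⟨i, (fix i).2 rfl, fun x hx => (fix x).1 hx⟩, ?_⟩
    intro x y hx hy
    have hx' : ε.symm x - ε.symm i ≠ 0 := fun h0 => hx ((fix x).2 (ε.symm.injective (sub_eq_zero.1 h0)))
    have hy' : ε.symm y - ε.symm i ≠ 0 := fun h0 => hy ((fix y).2 (ε.symm.injective (sub_eq_zero.1 h0)))
    obtain ⟨k, hk⟩ := W.reach hE hgen hx'
    obtain ⟨l, hl⟩ := W.reach hE hgen hy'
    rw [← hPk] at hk hl
    have hfin := isOfFinOrder_of_finite P
    obtain ⟨n, hn⟩ : ∃ n : ℕ, (P ^ n) (ε.symm x - ε.symm i) = 1 := by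
      have h3 : (P ^ k)⁻¹ ∈ Submonoid.powers P := by
        rw [hfin.mem_powers_iff_mem_zpowers]
        exact (Subgroup.zpowers P).inv_mem ((Subgroup.zpowers P).pow_mem (Subgroup.mem_zpowers _) k)
      obtain ⟨n, hn⟩ := h3
      refine ⟨n, ?_⟩
      have hn' : P ^ n = (P ^ k)⁻¹ := hn
      rw [hn', ← hk, ← Equiv.Perm.mul_apply, inv_mul_cancel, Equiv.Perm.one_apply]
    refine ⟨l + n, ?_⟩
    rw [hpow, pow_add, Equiv.Perm.mul_apply, hn, hl, add_sub_cancel, Equiv.apply_symm_apply]
  · rintro ⟨G, hG, r, c', s, H⟩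
    refine W.not_group2 hk1 hcard he hee hnid G (ε.trans r) (ε.trans c') (ε.trans s) fun i j => ?_
    have h1 := H (ε i) (ε j)
    rw [hL, Equiv.symm_apply_apply, Equiv.symm_apply_apply] at h1
    exact h1
  · intro j i i' hij
    have h1 : ((L i) ^ 2) j = ((L i') ^ 2) j := by
      rw [pow_two, pow_two]; exact hij
    rw [hpow, hpow] at h1
    have h3 := ε.injective h1
    rw [hPk, hPk] at h3
    have h4 : f c b (f c b (ε.symm j - ε.symm i)) + (ε.symm j - ε.symm i) =
        f c b (f c b (ε.symm j - ε.symm i')) + (ε.symm j - ε.symm i') := by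
      have h5 := W.two
      have h6 : ∀ x, (f c b)^[2] x = f c b (f c b x) := fun x => rfl
      rw [h6, h6] at h3
      linear_combination h3 - (ε.symm i - ε.symm i') * h5
    have h5 := W.diff2_inj h4
    exact ε.symm.injective (sub_right_injective h5)

theorem of_good {k : ℕ} (hk : 1 ≤ k) (h : Good k) : HasSquare (2 ^ k) := by
  obtain ⟨e, N, he, hN, hee, hW⟩ := h
  exact main hk hN hee hW

/-- (1) There is a D-type latin square of order `2 ^ k`, not based on a group, whose square is a latin square, for every `k` for which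
there is a divisor `e ≥ 3` of `2 ^ k - 1`, `e N = 2 ^ k - 1`, `e ^ 2 < 2 ^ k`, with `e ^ 2 (1 + 2 ^ ω(N) √(2 ^ (k + 1))) < φ(N)`, where `ω(N)`
is the number of the primes dividing `N`. (2) The same holds for the primes `k = 5, 11, 23, 29, 37, 41, 43, 47, 53, 59`. -/
theorem result : (∀ k e N : ℕ, 3 ≤ e → e * N = 2 ^ k - 1 → e ^ 2 < 2 ^ k →
      (e : ℝ) ^ 2 * (1 + 2 ^ N.primeFactors.card * Real.sqrt (2 ^ (k + 1))) < N.totient → HasSquare (2 ^ k)) ∧
    ∀ k ∈ ({5, 11, 23, 29, 37, 41, 43, 47, 53, 59} : Finset ℕ), HasSquare (2 ^ k) := by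
  refine ⟨fun k e N he3 hN hee h => of_good ?_ (good_count he3 hN (by rw [← pow_two]; exact hee) ?_), fun k hk => ?_⟩
  · by_contra h0
    have h1 : k = 0 := by omega
    rw [h1, pow_zero] at hee
    have : 3 ^ 2 ≤ e ^ 2 := Nat.pow_le_pow_left he3 2
    omega
  · have h1 : (2 : ℝ) * ((2 ^ k : ℕ) : ℝ) = 2 ^ (k + 1) := by push_cast; ring
    rw [h1]
    exact h
  · simp only [Finset.mem_insert, Finset.mem_singleton] at hk
    rcases hk with rfl | rfl | rfl | rfl | rfl | rfl | rfl | rfl | rfl | rfl
    · exact Pool.Agent.H62.DE32.thirtytwo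
    · exact of_good (by norm_num) Pool.Agent.H62.GE.good11
    · exact of_good (by norm_num) Pool.Agent.H62.GE.good23
    · exact of_good (by norm_num) Pool.Agent.H62.GE.good29
    · exact of_good (by norm_num) Pool.Agent.H62.GE.good37
    · exact of_good (by norm_num) Pool.Agent.H62.GE.good41
    · exact of_good (by norm_num) Pool.Agent.H62.GE.good43
    · exact of_good (by norm_num) Pool.Agent.H62.GE.good47
    · exact of_good (by norm_num) Pool.Agent.H62.GE.good53
    · exact of_good (by norm_num) Pool.Agent.H62.GE.good59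

end Pool.Agent.Results.MP_2f0703_co.PrimeExponents
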